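import Mathlib

open Finset Filter Topology

namespace Pool.Agent.Results.MP_d4e795_co.LimitExists

/-- `X` is a `d`-partition of `Fin n`: an (unordered) family of `d` nonempty pairwise disjoint
sets whose union is everything. -/
def IsDPartition {n : ℕ} (d : ℕ) (X : Finset (Finset (Fin n))) : Prop :=
  X.card = d ∧ (∀ A ∈ X, A.Nonempty) ∧ (∀ A ∈ X, ∀ B ∈ X, A ≠ B → Disjoint A B) ∧
    ∀ v : Fin n, ∃ A ∈ X, v ∈ A

/-- `E` blocks `X` if some member of `E` meets every member of `X`. -/
def Blocks {n : ℕ} (E X : Finset (Finset (Fin n))) : Prop :=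
  ∃ e ∈ E, ∀ A ∈ X, (e ∩ A).Nonempty

/-- `E` is a `d`-blocking set: a family of `d`-element subsets blocking every `d`-partition. -/
def IsBlockingSet {n : ℕ} (d : ℕ) (E : Finset (Finset (Fin n))) : Prop :=
  (∀ e ∈ E, e.card = d) ∧ ∀ X : Finset (Finset (Fin n)), IsDPartition d X → Blocks E X

/-- `φ_d(n)`: the minimum size of a `d`-blocking set for an `n`-element set. -/
noncomputable def phi (d n : ℕ) : ℕ :=
  sInf {k : ℕ | ∃ E : Finset (Finset (Fin n)), IsBlockingSet d E ∧ E.card = k}

/-- Blocking sets in terms of surjections onto `Fin d`. -/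
def SBlock {V : Type} [DecidableEq V] (d : ℕ) (E : Finset (Finset V)) : Prop :=
  (∀ e ∈ E, e.card = d) ∧
    ∀ f : V → Fin d, Function.Surjective f → ∃ e ∈ E, ∀ i, ∃ x ∈ e, f x = i

lemma sblock_of_blocking {n d : ℕ} {E : Finset (Finset (Fin n))} (h : IsBlockingSet d E) :
    SBlock d E := by
  refine ⟨h.1, fun f hf => ?_⟩
  have hX : IsDPartition d ((univ : Finset (Fin d)).image
      (fun i => (univ : Finset (Fin n)).filter (fun v => f v = i))) := by
    refine ⟨?_, ?_, ?_, ?_⟩
    · rw [card_image_of_injective, card_univ, Fintype.card_fin]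
      intro i j hij
      obtain ⟨v, hv⟩ := hf i
      have : v ∈ (univ : Finset (Fin n)).filter (fun v => f v = i) := by simp [hv]
      simp only at hij
      rw [hij] at this
      simp only [mem_filter, mem_univ, true_and] at this
      rw [← hv, this]
    · intro A hA
      simp only [mem_image, mem_univ, true_and] at hA
      obtain ⟨i, rfl⟩ := hA
      obtain ⟨v, hv⟩ := hf i
      exact ⟨v, by simp [hv]⟩
    · intro A hA B hB hAB
      simp only [mem_image, mem_univ, true_and] at hA hB
      obtain ⟨i, rfl⟩ := hA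
      obtain ⟨j, rfl⟩ := hB
      rw [Finset.disjoint_left]
      intro v hv hv'
      simp only [mem_filter, mem_univ, true_and] at hv hv'
      apply hAB
      rw [← hv, ← hv']
    · intro v
      exact ⟨_, mem_image_of_mem _ (mem_univ (f v)), by simp⟩
  obtain ⟨e, he, hb⟩ := h.2 _ hX
  refine ⟨e, he, fun i => ?_⟩
  obtain ⟨x, hx⟩ := hb _ (mem_image_of_mem _ (mem_univ i))
  simp only [mem_inter, mem_filter, mem_univ, true_and] at hx
  exact ⟨x, hx.1, hx.2⟩

lemma blocking_of_sblock {n d : ℕ} {E : Finset (Finset (Fin n))} (h : SBlock d E) :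
    IsBlockingSet d E := by
  refine ⟨h.1, fun X hX => ?_⟩
  obtain ⟨hc, hne, hdis, hcov⟩ := hX
  choose P hP hvP using hcov
  let q : X ≃ Fin d := Finset.equivFinOfCardEq hc
  have huniq : ∀ v, ∀ A ∈ X, v ∈ A → P v = A := by
    intro v A hA hv
    by_contra hne'
    exact Finset.disjoint_left.mp (hdis _ (hP v) _ hA hne') (hvP v) hv
  obtain ⟨e, he, hb⟩ := h.2 (fun v => q ⟨P v, hP v⟩) (by
    intro i
    obtain ⟨v, hv⟩ := hne (q.symm i).1 (q.symm i).2
    refine ⟨v, ?_⟩
    have h1 := huniq v _ (q.symm i).2 hv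
    have h2 : (⟨P v, hP v⟩ : X) = q.symm i := Subtype.ext h1
    change q ⟨P v, hP v⟩ = i
    rw [h2, q.apply_symm_apply])
  refine ⟨e, he, fun A hA => ?_⟩
  obtain ⟨x, hx, hxi⟩ := hb (q ⟨A, hA⟩)
  have := q.injective hxi
  have h2 : P x = A := congrArg Subtype.val this
  exact ⟨x, mem_inter.mpr ⟨hx, h2 ▸ hvP x⟩⟩

lemma sblock_push {V W : Type} [DecidableEq V] [DecidableEq W] (π : V → W)
    (hπ : Function.Surjective π) {d : ℕ} {E : Finset (Finset V)} (h : SBlock d E) :
    ∃ E' : Finset (Finset W), SBlock d E' ∧ E'.card ≤ E.card := by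
  refine ⟨(E.image (fun e => e.image π)).filter (fun e => e.card = d), ⟨?_, ?_⟩, ?_⟩
  · intro e he
    exact (mem_filter.mp he).2
  · intro f hf
    obtain ⟨e, he, hb⟩ := h.2 (f ∘ π) (hf.comp hπ)
    refine ⟨e.image π, ?_, ?_⟩
    · rw [mem_filter]
      refine ⟨mem_image_of_mem _ he, ?_⟩
      apply le_antisymm
      · exact card_image_le.trans (h.1 e he).le
      · have : (univ : Finset (Fin d)) ⊆ (e.image π).image f := by
          intro i _
          obtain ⟨x, hx, hxi⟩ := hb i
          exact mem_image.mpr ⟨π x, mem_image_of_mem _ hx, hxi⟩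
        have h2 := (card_le_card this).trans card_image_le
        simpa using h2
    · intro i
      obtain ⟨x, hx, hxi⟩ := hb i
      exact ⟨π x, mem_image_of_mem _ hx, hxi⟩
  · exact (card_filter_le _ _).trans card_image_le

lemma phi_spec (d n : ℕ) : ∃ E : Finset (Finset (Fin n)), IsBlockingSet d E ∧ E.card = phi d n := by
  have hne : {k : ℕ | ∃ E : Finset (Finset (Fin n)), IsBlockingSet d E ∧ E.card = k}.Nonempty := by
    have hsb : SBlock d (powersetCard d (univ : Finset (Fin n))) := by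
      refine ⟨fun e he => (mem_powersetCard.mp he).2, ?_⟩
      intro f hf
      refine ⟨univ.image (Function.surjInv hf), ?_, ?_⟩
      · rw [mem_powersetCard]
        refine ⟨subset_univ _, ?_⟩
        rw [card_image_of_injective _ (Function.injective_surjInv hf)]
        simp
      · intro i
        exact ⟨Function.surjInv hf i, mem_image_of_mem _ (mem_univ i), Function.surjInv_eq hf i⟩
    exact ⟨(powersetCard d (univ : Finset (Fin n))).card, powersetCard d univ, blocking_of_sblock hsb, rfl⟩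
  exact Nat.sInf_mem hne

lemma phi_le_of_sblock {V : Type} [DecidableEq V] {d n : ℕ} (π : V → Fin n)
    (hπ : Function.Surjective π) {E : Finset (Finset V)} (h : SBlock d E) :
    phi d n ≤ E.card := by
  obtain ⟨E', hE', hc⟩ := sblock_push π hπ h
  have h2 : E'.card ∈ {k : ℕ | ∃ E : Finset (Finset (Fin n)), IsBlockingSet d E ∧ E.card = k} :=
    ⟨E', blocking_of_sblock hE', rfl⟩
  exact (Nat.sInf_le h2).trans hc

section construction

variable {a m r : ℕ} [NeZero a] [NeZero m]

/-- Extend `s` by minus its sum. -/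
def ext0 {k : ℕ} (s : Fin k → ZMod m) : Fin (k + 1) → ZMod m :=
  Fin.cons (-∑ i, s i) s

/-- The transversals over the block set `e`. -/
def fam1 (E0 : Finset (Finset (Fin a))) : Finset (Finset (Fin a × ZMod m)) :=
  E0.biUnion (fun e => (univ : Finset (Fin (r + 2) → ZMod m)).image (fun s =>
    if h : e.card = r + 2 + 1 then
      (univ : Finset (Fin (r + 2 + 1))).image (fun i => (e.orderEmbOfFin h i, ext0 s i))
    else ∅))

/-- The second family. -/
def fam2 (a m r : ℕ) [NeZero a] [NeZero m] : Finset (Finset (Fin a × ZMod m)) :=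
  ((univ : Finset ((Fin a × ZMod m) × ZMod m × Bool × (Fin r → Fin a × ZMod m))).image
    (fun (t : (Fin a × ZMod m) × ZMod m × Bool × (Fin r → Fin a × ZMod m)) =>
      insert ((0 : Fin a), (0 : ZMod m))
      (insert ((if t.2.2.1 then t.1.1 else (0 : Fin a)), t.2.1)
      (insert t.1 ((univ : Finset (Fin r)).image t.2.2.2))))).filter (fun e => e.card = r + 3)

lemma card_fam1 (E0 : Finset (Finset (Fin a))) :
    (fam1 (m := m) (r := r) E0).card ≤ E0.card * m ^ (r + 2) := by
  unfold fam1
  apply card_biUnion_le_card_mul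
  intro e _
  refine card_image_le.trans ?_
  simp [ZMod.card]

lemma card_fam2 : (fam2 a m r).card ≤ 2 * (a * m) ^ (r + 1) * m := by
  unfold fam2
  refine (card_filter_le _ _).trans (card_image_le.trans ?_)
  simp only [card_univ, Fintype.card_prod, Fintype.card_fin, ZMod.card, Fintype.card_bool,
    Fintype.card_pi, prod_const]
  apply le_of_eq
  ring

lemma fam1_card_mem (E0 : Finset (Finset (Fin a))) (h0 : ∀ e ∈ E0, e.card = r + 3) :
    ∀ S ∈ fam1 (m := m) (r := r) E0, S.card = r + 3 := by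
  intro S hS
  unfold fam1 at hS
  simp only [mem_biUnion, mem_image, mem_univ, true_and] at hS
  obtain ⟨e, he, s, hs⟩ := hS
  have hc : e.card = r + 2 + 1 := h0 e he
  rw [dif_pos hc] at hs
  rw [← hs, card_image_of_injective]
  · simp
  · intro i j hij
    simp only [Prod.mk.injEq] at hij
    exact (e.orderEmbOfFin hc).injective hij.1

/-- Any rainbow set through `p` with a suitable pair belongs to the second family. -/
lemma mem_fam2 (f : Fin a × ZMod m → Fin (r + 3)) (v : Fin (r + 3) → Fin a × ZMod m)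
    (hv : ∀ i, f (v i) = i) (c0 c1 c2 : Fin (r + 3)) (h01 : c0 ≠ c1) (h02 : c0 ≠ c2)
    (h12 : c1 ≠ c2) (hp : v c0 = (0, 0)) (h : (v c1).1 = (v c2).1 ∨ (v c1).1 = 0) :
    (univ : Finset (Fin (r + 3))).image v ∈ fam2 a m r := by
  have hinj : Function.Injective v := by
    intro i j hij
    rw [← hv i, ← hv j, hij]
  unfold fam2
  rw [mem_filter]
  constructor
  · rw [mem_image]
    have hcard : ((univ : Finset (Fin (r + 3))) \ {c0, c1, c2}).card = r := by
      rw [card_sdiff_of_subset (subset_univ _), card_univ, Fintype.card_fin,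
        card_eq_three.mpr ⟨c0, c1, c2, h01, h02, h12, rfl⟩]
      omega
    refine ⟨(v c2, (v c1).2, decide ((v c1).1 = (v c2).1),
      fun i => v (((univ : Finset (Fin (r + 3))) \ {c0, c1, c2}).orderEmbOfFin hcard i)),
      mem_univ _, ?_⟩
    have h1 : ((if decide ((v c1).1 = (v c2).1) then (v c2).1 else 0), (v c1).2) = v c1 := by
      by_cases hh : (v c1).1 = (v c2).1
      · simp [hh]
        rw [← hh]
      · have h3 := h.resolve_left hh
        simp only [hh, decide_false, Bool.false_eq_true, if_false]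
        rw [← h3]
    have h2 : (univ : Finset (Fin r)).image
        (fun i => v (((univ : Finset (Fin (r + 3))) \ {c0, c1, c2}).orderEmbOfFin hcard i))
        = ((univ : Finset (Fin (r + 3))) \ {c0, c1, c2}).image v := by
      have h5 := Finset.image_orderEmbOfFin_univ ((univ : Finset (Fin (r + 3))) \ {c0, c1, c2}) hcard
      conv_rhs => rw [← h5]
      rw [image_image]
      rfl
    simp only
    rw [h1, h2, ← hp]
    ext x
    simp only [mem_insert, mem_image, Finset.mem_sdiff, mem_univ, true_and, mem_singleton, not_or]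
    constructor
    · rintro (rfl | rfl | rfl | ⟨i, _, rfl⟩)
      · exact ⟨_, rfl⟩
      · exact ⟨_, rfl⟩
      · exact ⟨_, rfl⟩
      · exact ⟨_, rfl⟩
    · rintro ⟨i, rfl⟩
      by_cases e0 : i = c0
      · left; rw [e0]
      by_cases e1 : i = c1
      · right; left; rw [e1]
      by_cases e2 : i = c2
      · right; right; left; rw [e2]
      · right; right; right
        exact ⟨i, ⟨e0, e1, e2⟩, rfl⟩
  · rw [card_image_of_injective _ hinj]
    simp

lemma exists_third (c0 c1 : Fin (r + 3)) (h : c0 ≠ c1) : ∃ c2 : Fin (r + 3), c0 ≠ c2 ∧ c1 ≠ c2 := by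
  have : ({c0, c1} : Finset (Fin (r + 3))).card < (univ : Finset (Fin (r + 3))).card := by
    rw [card_pair h]
    simp
  obtain ⟨x, _, hx⟩ := exists_mem_notMem_of_card_lt_card this
  simp only [mem_insert, mem_singleton, not_or] at hx
  exact ⟨x, Ne.symm hx.1, Ne.symm hx.2⟩

lemma sblock_union (E0 : Finset (Finset (Fin a))) (h0 : SBlock (r + 3) E0) :
    SBlock (r + 3) (fam1 (m := m) (r := r) E0 ∪ fam2 a m r) := by
  classical
  constructor
  · intro S hS
    rcases mem_union.mp hS with hS | hS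
    · exact fam1_card_mem E0 h0.1 S hS
    · exact (mem_filter.mp hS).2
  intro f hf
  by_contra hcon
  push Not at hcon
  set p : Fin a × ZMod m := (0, 0) with hpdef
  set c0 := f p with hc0
  -- a rainbow system through prescribed points gives a member of the second family
  have key : ∀ x y : Fin a × ZMod m, f x ≠ c0 → f y ≠ c0 → f x ≠ f y →
      (x.1 = y.1 ∨ x.1 = 0) → False := by
    intro x y hx hy hxy hor
    let v : Fin (r + 3) → Fin a × ZMod m := fun i =>
      if i = c0 then p else if i = f x then x else if i = f y then y else Function.surjInv hf i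
    have hv : ∀ i, f (v i) = i := by
      intro i
      simp only [v]
      split_ifs with e1 e2 e3
      · rw [e1]
      · rw [e2]
      · rw [e3]
      · exact Function.surjInv_eq hf i
    have hv0 : v c0 = p := by simp [v]
    have hv1 : v (f x) = x := by simp [v, hx]
    have hv2 : v (f y) = y := by simp [v, hy, hxy.symm]
    have hmem := mem_fam2 f v hv c0 (f x) (f y) hx.symm hy.symm hxy hv0 (by rw [hv1, hv2]; exact hor)
    obtain ⟨i, hi⟩ := hcon _ (mem_union_right _ hmem)
    exact hi (v i) (mem_image_of_mem _ (mem_univ i)) (hv i)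
  -- the zero block is pure
  have hpure : ∀ x : Fin a × ZMod m, x.1 = 0 → f x = c0 := by
    intro x hx
    by_contra hne
    obtain ⟨c2, h1, h2⟩ := exists_third c0 (f x) (Ne.symm hne)
    obtain ⟨y, hy⟩ := hf c2
    exact key x y hne (by rw [hy]; exact h1.symm) (by rw [hy]; exact h2) (Or.inr hx)
  have hone : ∀ x y : Fin a × ZMod m, x.1 = y.1 → f x ≠ c0 → f y ≠ c0 → f x = f y := by
    intro x y hxy hx hy
    by_contra hne
    exact key x y hx hy hne (Or.inl hxy)
  -- coarse colouring
  let g : Fin a → Fin (r + 3) := fun b =>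
    if h : ∃ j : ZMod m, f (b, j) ≠ c0 then f (b, h.choose) else c0
  have hg1 : ∀ b j, f (b, j) ≠ c0 → g b = f (b, j) := by
    intro b j hj
    have hex : ∃ j : ZMod m, f (b, j) ≠ c0 := ⟨j, hj⟩
    simp only [g, dif_pos hex]
    exact hone _ _ rfl hex.choose_spec hj
  have hg2 : ∀ b, g b = c0 → ∀ j, f (b, j) = c0 := by
    intro b hb j
    by_contra hne
    exact hne ((hg1 b j hne).symm.trans hb)
  have hg3 : ∀ b, ∃ j, f (b, j) = g b := by
    intro b
    by_cases hex : ∃ j : ZMod m, f (b, j) ≠ c0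
    · exact ⟨hex.choose, by simp only [g, dif_pos hex]⟩
    · refine ⟨0, ?_⟩
      push Not at hex
      have : g b = c0 := by
        simp only [g]
        rw [dif_neg]
        push Not
        exact hex
      rw [this, hex]
  have hgs : Function.Surjective g := by
    intro i
    by_cases hi : i = c0
    · refine ⟨0, ?_⟩
      obtain ⟨j, hj⟩ := hg3 0
      rw [← hj, hpure _ rfl, hi]
    · obtain ⟨x, hx⟩ := hf i
      refine ⟨x.1, ?_⟩
      rw [hg1 x.1 x.2 (by simpa [hx] using hi)]
      simpa using hx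
  obtain ⟨e, he, hrb⟩ := h0.2 g hgs
  have hec : e.card = r + 2 + 1 := h0.1 e he
  choose t ht using hg3
  obtain ⟨b0, hb0, hgb0⟩ := hrb c0
  -- corrected coordinates
  let t' : Fin a → ZMod m := fun b => if b = b0 then -∑ c ∈ e.erase b0, t c else t b
  have hsum : ∑ b ∈ e, t' b = 0 := by
    rw [← add_sum_erase _ _ hb0]
    have h1 : t' b0 = -∑ c ∈ e.erase b0, t c := by simp [t']
    have h2 : ∑ b ∈ e.erase b0, t' b = ∑ c ∈ e.erase b0, t c := by
      apply sum_congr rfl
      intro c hc
      simp [t', ne_of_mem_erase hc]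
    rw [h1, h2]
    ring
  have ht' : ∀ b, f (b, t' b) = g b := by
    intro b
    by_cases hb : b = b0
    · rw [hb, hgb0]
      exact hg2 b0 hgb0 _
    · simp only [t', if_neg hb]
      exact ht b
  let s : Fin (r + 2) → ZMod m := fun i => t' (e.orderEmbOfFin hec i.succ)
  have hext : ∀ i : Fin (r + 2 + 1), ext0 s i = t' (e.orderEmbOfFin hec i) := by
    intro i
    have htot : ∑ i : Fin (r + 2 + 1), t' (e.orderEmbOfFin hec i) = 0 := by
      rw [← hsum]
      conv_rhs => rw [← Finset.image_orderEmbOfFin_univ e hec]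
      rw [sum_image]
      intro x _ y _ hxy
      exact (e.orderEmbOfFin hec).injective hxy
    refine Fin.cases ?_ (fun j => ?_) i
    · simp only [ext0, Fin.cons_zero]
      rw [Fin.sum_univ_succ] at htot
      exact neg_eq_of_add_eq_zero_left htot
    · simp only [ext0, Fin.cons_succ, s]
  have hmem : (univ : Finset (Fin (r + 2 + 1))).image (fun i => (e.orderEmbOfFin hec i, ext0 s i))
      ∈ fam1 (m := m) (r := r) E0 := by
    unfold fam1
    simp only [mem_biUnion, mem_image, mem_univ, true_and]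
    refine ⟨e, he, s, ?_⟩
    rw [dif_pos hec]
  obtain ⟨i, hi⟩ := hcon _ (mem_union_left _ hmem)
  obtain ⟨b, hb, hgb⟩ := hrb i
  have hb' : b ∈ (univ : Finset (Fin (r + 2 + 1))).image (e.orderEmbOfFin hec) := by
    rw [Finset.image_orderEmbOfFin_univ]
    exact hb
  obtain ⟨l, _, hl⟩ := mem_image.mp hb'
  refine hi (b, t' b) ?_ ?_
  · rw [mem_image]
    exact ⟨l, mem_univ _, by rw [hext, hl]⟩
  · rw [ht', hgb]

end construction

lemma phi_ineq (r a m N : ℕ) (ha : 0 < a) (hm : 0 < m) (hN : 0 < N) (hle : N ≤ a * m) :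
    phi (r + 3) N ≤ phi (r + 3) a * m ^ (r + 2) + 2 * (a * m) ^ (r + 1) * m := by
  have : NeZero a := ⟨ha.ne'⟩
  have : NeZero m := ⟨hm.ne'⟩
  obtain ⟨E0, hE0, hc⟩ := phi_spec (r + 3) a
  have h1 := sblock_union (m := m) (r := r) E0 (sblock_of_blocking hE0)
  have hsurj : ∃ π : Fin a × ZMod m → Fin N, Function.Surjective π := by
    have : Nonempty (Fin N) := ⟨⟨0, hN⟩⟩
    have hemb : Nonempty (Fin N ↪ Fin a × ZMod m) := by
      apply Function.Embedding.nonempty_of_card_le
      simp [ZMod.card]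
      exact hle
    obtain ⟨φ⟩ := hemb
    exact ⟨Function.invFun φ, Function.invFun_surjective φ.injective⟩
  obtain ⟨π, hπ⟩ := hsurj
  refine (phi_le_of_sblock π hπ h1).trans ((card_union_le _ _).trans ?_)
  have h2 := card_fam1 (m := m) (r := r) E0
  have h3 := card_fam2 (a := a) (m := m) (r := r)
  rw [hc] at h2
  exact add_le_add h2 h3

/-- For every `d ≥ 3` (in particular for every `d ≥ 4`) the limit of `φ_d(n) / n ^ (d - 1)`
exists. -/
theorem result : ∀ d : ℕ, 3 ≤ d →
    ∃ c : ℝ, Tendsto (fun n : ℕ => (phi d n : ℝ) / (n : ℝ) ^ (d - 1)) atTop (𝓝 c) := by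
  intro d hd
  obtain ⟨r, rfl⟩ : ∃ r, d = r + 3 := ⟨d - 3, by omega⟩
  have hd1 : r + 3 - 1 = r + 2 := by omega
  rw [hd1]
  let u : ℕ → ℝ := fun a => (phi (r + 3) (a + 1) : ℝ) / ((a + 1 : ℕ) : ℝ) ^ (r + 2) +
    2 / ((a + 1 : ℕ) : ℝ)
  have hu0 : ∀ a, 0 ≤ u a := fun a => by positivity
  have hbdd : BddBelow (Set.range u) := ⟨0, by rintro _ ⟨a, rfl⟩; exact hu0 a⟩
  refine ⟨⨅ a, u a, ?_⟩
  -- upper estimate
  have hupper : ∀ a N : ℕ, 0 < N → (phi (r + 3) N : ℝ) / (N : ℝ) ^ (r + 2) ≤
      u a * (1 + ((a + 1 : ℕ) : ℝ) / (N : ℝ)) ^ (r + 2) := by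
    intro a N hN
    set A : ℕ := a + 1 with hA
    have hApos : 0 < A := by omega
    set m : ℕ := N / A + 1 with hm
    have hlt : N ≤ A * m := (Nat.lt_mul_div_succ N hApos).le
    have hle2 : A * m ≤ N + A := by
      rw [hm, Nat.mul_add, mul_one]
      exact Nat.add_le_add_right (Nat.mul_div_le N A) A
    have h1 := phi_ineq r A m N hApos (Nat.succ_pos _) hN hlt
    have h1' : (phi (r + 3) N : ℝ) ≤ (phi (r + 3) A : ℝ) * (m : ℝ) ^ (r + 2) +
        2 * ((A : ℝ) * m) ^ (r + 1) * m := by exact_mod_cast h1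
    have hAr : (0 : ℝ) < A := by exact_mod_cast hApos
    have hNr : (0 : ℝ) < N := by exact_mod_cast hN
    have h2 : (phi (r + 3) A : ℝ) * (m : ℝ) ^ (r + 2) + 2 * ((A : ℝ) * m) ^ (r + 1) * m =
        u a * ((A : ℝ) * m) ^ (r + 2) := by
      simp only [u]
      rw [← hA]
      field_simp
      ring
    have h3 : ((A : ℝ) * m) ^ (r + 2) ≤ ((N : ℝ) + A) ^ (r + 2) := by
      apply pow_le_pow_left₀ (by positivity)
      exact_mod_cast hle2
    have h4 : (phi (r + 3) N : ℝ) ≤ u a * ((N : ℝ) + A) ^ (r + 2) := by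
      rw [h2] at h1'
      exact h1'.trans (mul_le_mul_of_nonneg_left h3 (hu0 a))
    have h5 : (1 + (A : ℝ) / (N : ℝ)) ^ (r + 2) = ((N : ℝ) + A) ^ (r + 2) / (N : ℝ) ^ (r + 2) := by
      rw [← div_pow]
      congr 1
      field_simp
    rw [h5, ← mul_div_assoc]
    exact div_le_div_of_nonneg_right h4 (by positivity)
  have hlower : ∀ N : ℕ, 0 < N → (⨅ a, u a) - 2 / (N : ℝ) ≤
      (phi (r + 3) N : ℝ) / (N : ℝ) ^ (r + 2) := by
    intro N hN
    have h1 := ciInf_le hbdd (N - 1)
    have h2 : N - 1 + 1 = N := by omega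
    have h3 : u (N - 1) = (phi (r + 3) N : ℝ) / (N : ℝ) ^ (r + 2) + 2 / (N : ℝ) := by
      simp only [u, h2]
    rw [h3] at h1
    linarith
  rw [tendsto_order]
  constructor
  · intro b hb
    have ht : Tendsto (fun N : ℕ => (⨅ a, u a) - 2 / (N : ℝ)) atTop (𝓝 ((⨅ a, u a) - 0)) :=
      tendsto_const_nhds.sub (tendsto_const_div_atTop_nhds_zero_nat 2)
    rw [sub_zero] at ht
    filter_upwards [ht.eventually_const_lt hb, eventually_gt_atTop 0] with N h1 h2
    exact h1.trans_le (hlower N h2)
  · intro b hb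
    obtain ⟨a, ha⟩ := exists_lt_of_ciInf_lt hb
    have ht : Tendsto (fun N : ℕ => u a * (1 + ((a + 1 : ℕ) : ℝ) / (N : ℝ)) ^ (r + 2)) atTop
        (𝓝 (u a * (1 + 0) ^ (r + 2))) :=
      ((tendsto_const_nhds.add (tendsto_const_div_atTop_nhds_zero_nat _)).pow _).const_mul _
    rw [add_zero, one_pow, mul_one] at ht
    filter_upwards [ht.eventually_lt_const ha, eventually_gt_atTop 0] with N h1 h2
    exact (hupper a N h2).trans_lt h1

end Pool.Agent.Results.MP_d4e795_co.LimitExists
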